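import Pool.Agent.H.MP_8d8cf3_an.A

set_option autoImplicit false

open Complex Finset

namespace Pool.Agent.Results.MP_8d8cf3_an.No

noncomputable def u (cp cm : ℤ →₀ ℂ) (t x : ℝ) : ℂ :=
  cp 0 + cm 0 * t + ∑ k ∈ (cp.support ∪ cm.support).erase 0,
    (cp k * exp (I * k ^ 2 * t) + cm k * exp (-I * k ^ 2 * t)) * exp (I * k * x)

def Ineq {m : ℕ} (a : Fin m → ℤ) (t x : Fin m → ℝ) (T : ℝ) : Prop :=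
  ∃ α : ℝ, 0 < α ∧ ∀ cp cm : ℤ →₀ ℂ, ∑ k ∈ cp.support ∪ cm.support, (‖cp k‖ ^ 2 + ‖cm k‖ ^ 2) ≤
    α * ∑ i, ∫ s in (0 : ℝ)..T, ‖u cp cm (t i + s) (x i - a i * s)‖ ^ 2

theorem result : (∀ (m : ℕ) (a : Fin m → ℤ) (t x : Fin m → ℝ) (T : ℝ), 0 < T →
      (∃ t₀ x₀ : ℝ, ∀ i, x i + a i * t i = x₀ + a i * t₀) → ¬Ineq a t x T) ∧
    ¬∃ m : ℕ, 3 ≤ m ∧ ∀ a : Fin m → ℤ, a.Injective → (∀ i, a i ≠ 0) →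
      ∀ (t x : Fin m → ℝ) (T : ℝ), 0 < T → Ineq a t x T :=
  Pool.Agent.H.MP_8d8cf3_an.main

end Pool.Agent.Results.MP_8d8cf3_an.No
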